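import Mathlib

/-!
# MP_954e53_ag.NegativeAnswer: definitions

Blocks `b : B` with coordinates `c : ι b`; the ring `R = K[X_{b,c}] / (∑_c M_b j c X_{b,c}^3)`;
`S_n` = classes of the polynomials all of whose monomials have degree `n` in every block and
weight `0` (`w : Var ι → A`); `S = ⊕ S_n ⊆ R`.
-/

namespace Pool.Agent.T9h29.NA

open MvPolynomial

universe u

/-- The variables: pairs (block, coordinate of the block). -/
abbrev Var {B : Type} (ι : B → Type) : Type := Σ b, ι b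

section general

variable {K : Type u} [Field K] {B : Type} [Fintype B] [DecidableEq B] {ι : B → Type}
  [∀ b, Fintype (ι b)] [∀ b, DecidableEq (ι b)]

/-- Degree of an exponent vector in the block `b`. -/
def bdeg (m : Var ι →₀ ℕ) (b : B) : ℕ := ∑ c, m ⟨b, c⟩

/-- Weight of an exponent vector. -/
def wgt {A : Type*} [AddCommGroup A] (w : Var ι → A) (m : Var ι →₀ ℕ) : A := ∑ v, m v • w v

/-- The cubic form `∑_c M_jc X_c^3` of the block `b`. -/
noncomputable def cubic {r : B → ℕ} (M : ∀ b, Matrix (Fin (r b)) (ι b) K) (b : B)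
    (j : Fin (r b)) : MvPolynomial (Var ι) K :=
  ∑ c, C (M b j c) * X ⟨b, c⟩ ^ 3

/-- The ideal of all the cubic forms. -/
noncomputable def idl {r : B → ℕ} (M : ∀ b, Matrix (Fin (r b)) (ι b) K) :
    Ideal (MvPolynomial (Var ι) K) :=
  Ideal.span {F | ∃ b j, F = cubic M b j}

/-- The coordinate ring `R` of the product of the cones. -/
abbrev Rg {r : B → ℕ} (M : ∀ b, Matrix (Fin (r b)) (ι b) K) : Type u :=
  MvPolynomial (Var ι) K ⧸ idl M

/-- Exponent vectors of degree `n` in every block and of weight `0`. -/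
def Good {A : Type*} [AddCommGroup A] (w : Var ι → A) (n : ℕ) : Set (Var ι →₀ ℕ) :=
  {m | (∀ b, bdeg m b = n) ∧ wgt w m = 0}

/-- `S_n`: the classes of the forms of degree `n` in every block which are linear combinations of
monomials of weight `0`. -/
noncomputable def Sn {r : B → ℕ} (M : ∀ b, Matrix (Fin (r b)) (ι b) K) {A : Type*}
    [AddCommGroup A] (w : Var ι → A) (n : ℕ) : Submodule K (Rg M) :=
  (restrictSupport K (Good w n)).map (Ideal.Quotient.mkₐ K (idl M)).toLinearMap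

/-- The graded ring `S = ⊕ S_n`, as a subring of `R`. -/
noncomputable def Stot {r : B → ℕ} (M : ∀ b, Matrix (Fin (r b)) (ι b) K) {A : Type*}
    [AddCommGroup A] (w : Var ι → A) : Subalgebra K (Rg M) :=
  Algebra.adjoin K (⋃ n, (Sn M w n : Set (Rg M)))

/-- The grading of `S`. -/
noncomputable def grS {r : B → ℕ} (M : ∀ b, Matrix (Fin (r b)) (ι b) K) {A : Type*}
    [AddCommGroup A] (w : Var ι → A) (n : ℕ) : Submodule K (Stot M w) :=
  (Sn M w n).comap (Stot M w).val.toLinearMap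

/-! ### Polynomial ring of the parameters `U_{b,j}`, `0 ≤ j ≤ e_b` -/

/-- `P = K[U_{b,j} : 0 ≤ j ≤ e_b]`. -/
abbrev Pg (K : Type u) [Field K] (e : B → ℕ) : Type u :=
  MvPolynomial (Σ b, Fin (e b + 1)) K

/-- `θ_l`: the coefficient of `z^l` in `∏_b (∑_j U_{b,j} z^j)`. -/
noncomputable def theta (K : Type u) [Field K] (e : B → ℕ) (l : ℕ) : Pg K e :=
  (∏ b, ∑ j : Fin (e b + 1), Polynomial.C (X ⟨b, j⟩ : Pg K e) * Polynomial.X ^ (j : ℕ)).coeff l

/-- A splitting of the matrix `M`: the columns of `L` are a basis of the kernel of `M`. -/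
structure Split {r e : ℕ} {κ : Type} [Fintype κ] [DecidableEq κ] (M : Matrix (Fin r) κ K) where
  L : Matrix κ (Fin (e + 1)) K
  Q : Matrix (Fin (e + 1)) κ K
  Z : Matrix κ (Fin r) K
  ML : M * L = 0
  QL : Q * L = 1
  LQ : 1 - L * Q = Z * M

/-- All maximal minors of `M` are nonzero (a matrix with `r` rows). -/
def AllMinors {r : ℕ} {κ : Type} [Fintype κ] [DecidableEq κ] (M : Matrix (Fin r) κ K) : Prop :=
  ∀ f : Fin r → κ, Function.Injective f → (M.submatrix id f).det ≠ 0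

/-- The algebra map `P → R`, `U_{b,j} ↦ ∑_c Q_jc X_{b,c}^3`. -/
noncomputable def psi {r e : B → ℕ} (M : ∀ b, Matrix (Fin (r b)) (ι b) K)
    (Sp : ∀ b, Split (e := e b) (M b)) : Pg K e →ₐ[K] Rg M :=
  aeval fun p => Ideal.Quotient.mk (idl M) (∑ c, C ((Sp p.1).Q p.2 c) * X ⟨p.1, c⟩ ^ 3)

/-- The monomial `X^a`, `a ∈ {0,1,2}^V`, in `R`. -/
noncomputable def Xa {r : B → ℕ} (M : ∀ b, Matrix (Fin (r b)) (ι b) K) (a : Var ι → Fin 3) :
    Rg M := Ideal.Quotient.mk (idl M) (∏ v, X v ^ (a v : ℕ))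

/-- The linear form `ℓ_{b,c} = ∑_j L_cj U_{b,j}`; in `R` one has `X_{b,c}^3 = ψ(ℓ_{b,c})`. -/
noncomputable def ell {r e : B → ℕ} (M : ∀ b, Matrix (Fin (r b)) (ι b) K)
    (Sp : ∀ b, Split (e := e b) (M b)) (v : Var ι) : Pg K e :=
  ∑ j, C ((Sp v.1).L v.2 j) * X ⟨v.1, j⟩

/-- Degree in the block `b` of `a ∈ {0,1,2}^V`. -/
def adeg (a : Var ι → Fin 3) (b : B) : ℕ := ∑ c, (a ⟨b, c⟩ : ℕ)

/-- Weight of `a ∈ {0,1,2}^V`. -/
def awgt {A : Type*} [AddCommGroup A] (w : Var ι → A) (a : Var ι → Fin 3) : A :=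
  ∑ v, (a v : ℕ) • w v

end general

end Pool.Agent.T9h29.NA
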