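import Pool.Agent.T9h29.NA.Iface

/-!
# `S_n` is the space of `Γ`-invariant elements of `R_(n,…,n)`
-/

namespace Pool.Agent.T9h29.NA

open MvPolynomial

universe u

section general

variable {K : Type u} [Field K] {B : Type} [Fintype B] [DecidableEq B] {ι : B → Type}
  [∀ b, Fintype (ι b)] [∀ b, DecidableEq (ι b)]

/-- `R_(n,…,n)`: the classes of the forms of degree `n` in every block. -/
noncomputable def Rn {r : B → ℕ} (M : ∀ b, Matrix (Fin (r b)) (ι b) K) (n : ℕ) :
    Submodule K (Rg M) :=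
  (restrictSupport K {m | ∀ b, bdeg m b = n}).map (Ideal.Quotient.mkₐ K (idl M)).toLinearMap

/-- The diagonal substitution `X_v ↦ ω^(χ v) X_v`. -/
noncomputable def act (ω : K) (χ : Var ι → ZMod 3) :
    MvPolynomial (Var ι) K →ₐ[K] MvPolynomial (Var ι) K :=
  aeval fun v => C (ω ^ (χ v).val) * X v

theorem act_cubic {r : B → ℕ} (M : ∀ b, Matrix (Fin (r b)) (ι b) K) {ω : K} (hω : ω ^ 3 = 1)
    (χ : Var ι → ZMod 3) (b : B) (j : Fin (r b)) :
    act ω χ (cubic M b j) = cubic M b j := by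
  simp only [act, cubic, map_sum, map_mul, map_pow, aeval_X, algHom_C]
  refine Finset.sum_congr rfl fun c _ => ?_
  have h1 : (ω ^ (χ ⟨b, c⟩).val) ^ 3 = 1 := by rw [← pow_mul, mul_comm, pow_mul, hω, one_pow]
  have h2 : ((C ω : MvPolynomial (Var ι) K) ^ (χ ⟨b, c⟩).val) ^ 3 = 1 := by
    rw [← C_pow, ← C_pow, h1, C_1]
  rw [mul_pow, h2, one_mul]
  rfl

theorem act_idl {r : B → ℕ} (M : ∀ b, Matrix (Fin (r b)) (ι b) K) {ω : K} (hω : ω ^ 3 = 1)
    (χ : Var ι → ZMod 3) : idl M ≤ (idl M).comap (act ω χ) := by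
  rw [idl, Ideal.span_le]
  rintro _ ⟨b, j, rfl⟩
  rw [SetLike.mem_coe, Ideal.mem_comap, act_cubic M hω]
  exact Ideal.subset_span ⟨b, j, rfl⟩

/-- The automorphism `X_v ↦ ω^(χ v) X_v` of `R`. -/
noncomputable def actR {r : B → ℕ} (M : ∀ b, Matrix (Fin (r b)) (ι b) K) {ω : K}
    (hω : ω ^ 3 = 1) (χ : Var ι → ZMod 3) : Rg M →ₐ[K] Rg M :=
  Ideal.quotientMapₐ (idl M) (act ω χ) (act_idl M hω χ)

theorem actR_mk {r : B → ℕ} (M : ∀ b, Matrix (Fin (r b)) (ι b) K) {ω : K}
    (hω : ω ^ 3 = 1) (χ : Var ι → ZMod 3) (F : MvPolynomial (Var ι) K) :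
    actR M hω χ (Ideal.Quotient.mk (idl M) F) = Ideal.Quotient.mk (idl M) (act ω χ F) := rfl

theorem act_monomial {ω : K} (χ : Var ι → ZMod 3) (m : Var ι →₀ ℕ) (a : K) :
    act ω χ (monomial m a) = monomial m (a * ω ^ (∑ v, m v * (χ v).val)) := by
  rw [act, aeval_monomial, Finsupp.prod_fintype _ _ (by simp)]
  simp only [mul_pow, ← C_pow]
  rw [Finset.prod_mul_distrib, ← map_prod, algebraMap_eq, ← mul_assoc, ← C_mul]
  rw [monomial_eq (s := m), Finsupp.prod_fintype _ _ (by simp)]
  congr 2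
  rw [← Finset.prod_pow_eq_pow_sum]
  congr 1
  refine Finset.prod_congr rfl fun v _ => ?_
  rw [← pow_mul, mul_comm]

theorem pow_cast {ω : K} (hω : ω ^ 3 = 1) (χ : Var ι → ZMod 3) (m : Var ι →₀ ℕ) :
    ω ^ (∑ v, m v * (χ v).val) = ω ^ (∑ v, m v • χ v).val := by
  have h : ((∑ v, m v * (χ v).val : ℕ) : ZMod 3) = ∑ v, m v • χ v := by
    push_cast
    refine Finset.sum_congr rfl fun v _ => ?_
    rw [ZMod.natCast_val, ZMod.cast_id', id, nsmul_eq_mul]
  rw [← h, ZMod.val_natCast, ← Nat.mod_add_div (∑ v, m v * (χ v).val) 3, pow_add, pow_mul, hω,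
    one_pow, mul_one]
  simp

/-- The space of invariants: `f ∈ S_n` iff `f ∈ R_(n,…,n)` and `f` is invariant under `Γ`. -/
theorem mem_Sn_iff_invariant {r : B → ℕ} (M : ∀ b, Matrix (Fin (r b)) (ι b) K) {ω : K}
    (hω : IsPrimitiveRoot ω 3) [CharZero K] {G : Type} [AddCommGroup G] [Finite G]
    (χ : G → Var ι → ZMod 3) (hχ : ∀ g h v, χ (g + h) v = χ g v + χ h v) (n : ℕ) (f : Rg M) :
    f ∈ Sn M (fun v g => χ g v) n ↔ f ∈ Rn M n ∧ ∀ g, actR M hω.pow_eq_one (χ g) f = f := by
  classical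
  cases nonempty_fintype G
  have h3 := hω.pow_eq_one
  constructor
  · rintro ⟨F, hF, rfl⟩
    refine ⟨⟨F, fun m hm => (hF hm).1, rfl⟩, fun g => ?_⟩
    change actR M h3 (χ g) (Ideal.Quotient.mk (idl M) F) = Ideal.Quotient.mk (idl M) F
    rw [actR_mk]
    congr 1
    conv_lhs => rw [F.as_sum, map_sum]
    conv_rhs => rw [F.as_sum]
    refine Finset.sum_congr rfl fun m hm => ?_
    rw [act_monomial, pow_cast h3]
    have hw := (hF hm).2
    have hz : ∑ v, m v • χ g v = 0 := by
      have := congrFun hw g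
      simpa [wgt, Finset.sum_apply, Pi.smul_apply] using this
    rw [hz, ZMod.val_zero, pow_zero, mul_one]
  · rintro ⟨⟨F, hF, hFf⟩, hinv⟩
    change Ideal.Quotient.mk (idl M) F = f at hFf
    -- the averaged polynomial
    set F' : MvPolynomial (Var ι) K := C ((Fintype.card G : K)⁻¹) * ∑ g, act ω (χ g) F with hF'
    have hcard : (Fintype.card G : K) ≠ 0 := by
      exact_mod_cast Fintype.card_ne_zero
    have hmk : Ideal.Quotient.mk (idl M) F' = f := by
      rw [hF', map_mul, map_sum]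
      have : ∀ g, Ideal.Quotient.mk (idl M) (act ω (χ g) F) = f := by
        intro g
        rw [← actR_mk M h3, hFf, hinv]
      simp only [this, Finset.sum_const, Finset.card_univ, nsmul_eq_mul]
      rw [← mul_assoc]
      have h1 : (Ideal.Quotient.mk (idl M) (C ((Fintype.card G : K)⁻¹))) * (Fintype.card G : Rg M)
          = 1 := by
        have : (Fintype.card G : Rg M) = Ideal.Quotient.mk (idl M) (C (Fintype.card G : K)) := by
          simp
        rw [this, ← map_mul, ← C_mul, inv_mul_cancel₀ hcard, C_1, map_one]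
      rw [h1, one_mul]
    -- its coefficients
    have hcoeff : ∀ m, coeff m F' =
        (Fintype.card G : K)⁻¹ * (coeff m F * ∑ g, ω ^ (∑ v, m v • χ g v).val) := by
      intro m
      have key : ∀ g : G, coeff m (act ω (χ g) F) = coeff m F * ω ^ (∑ v, m v • χ g v).val := ?_
      · rw [hF', coeff_C_mul, coeff_sum, Finset.sum_congr rfl fun g _ => key g, ← Finset.mul_sum]
      intro g
      conv_lhs => rw [F.as_sum, map_sum, coeff_sum]
      have : ∀ x ∈ F.support, coeff m (act ω (χ g) (monomial x (coeff x F)))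
          = if x = m then coeff m F * ω ^ (∑ v, m v • χ g v).val else 0 := by
        intro x _
        rw [act_monomial, pow_cast h3, coeff_monomial]
        split_ifs with h
        · subst h; rfl
        · rfl
      rw [Finset.sum_congr rfl this, Finset.sum_ite_eq']
      split_ifs with h
      · rfl
      · rw [notMem_support_iff.mp h, zero_mul]
    refine ⟨F', fun m hm => ?_, hmk⟩
    have hm' : coeff m F' ≠ 0 := mem_support_iff.mp hm
    rw [hcoeff] at hm'
    have hmF : coeff m F ≠ 0 := by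
      intro h; apply hm'; rw [h]; simp
    refine ⟨hF (mem_support_iff.mpr hmF), ?_⟩
    by_contra hne
    obtain ⟨g0, hg0⟩ : ∃ g0, ∑ v, m v • χ g0 v ≠ 0 := by
      by_contra hcon
      push Not at hcon
      apply hne
      funext g
      simpa [wgt, Finset.sum_apply, Pi.smul_apply] using hcon g
    have hadd : ∀ g h, ∑ v, m v • χ (g + h) v = ∑ v, m v • χ g v + ∑ v, m v • χ h v := by
      intro g h
      simp only [hχ, smul_add, Finset.sum_add_distrib]
    have hpow : ∀ a c : ZMod 3, ω ^ (a + c).val = ω ^ a.val * ω ^ c.val := by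
      intro a c
      rw [← pow_add, ZMod.val_add, ← Nat.mod_add_div (a.val + c.val) 3, pow_add _ _ (3 * _),
        pow_mul, h3, one_pow, mul_one]
      simp
    have hsum : ∑ g, ω ^ (∑ v, m v • χ g v).val = 0 := by
      have e1 : ∑ g, ω ^ (∑ v, m v • χ g v).val
          = ω ^ (∑ v, m v • χ g0 v).val * ∑ g, ω ^ (∑ v, m v • χ g v).val := by
        rw [Finset.mul_sum]
        rw [← Equiv.sum_comp (Equiv.addLeft g0) (fun g => ω ^ (∑ v, m v • χ g v).val)]
        refine Finset.sum_congr rfl fun g _ => ?_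
        rw [Equiv.coe_addLeft, hadd, hpow]
      have hne1 : ω ^ (∑ v, m v • χ g0 v).val ≠ 1 := by
        intro h
        have := (hω.pow_eq_one_iff_dvd _).mp h
        have hlt := ZMod.val_lt (∑ v, m v • χ g0 v)
        have h0 : (∑ v, m v • χ g0 v).val = 0 := Nat.eq_zero_of_dvd_of_lt this hlt
        exact hg0 ((ZMod.val_eq_zero _).mp h0)
      have : (1 - ω ^ (∑ v, m v • χ g0 v).val) * ∑ g, ω ^ (∑ v, m v • χ g v).val = 0 := by
        rw [sub_mul, one_mul, ← e1, sub_self]
      rcases mul_eq_zero.mp this with h | h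
      · exact absurd (sub_eq_zero.mp h).symm hne1
      · exact h
    apply hm'
    rw [hsum]; simp

end general

theorem chiLeaf_add (x x' : W) (s s' y y' : ZMod 3) (p : W × ZMod 3) :
    chiLeaf (x + x') (s + s') (y + y') p = chiLeaf x s y p + chiLeaf x' s' y' p := by
  simp only [chiLeaf, Pi.add_apply, add_mul, Finset.sum_add_distrib]
  ring

theorem chiPart_add (x x' : W) (y y' : ZMod 3) (u : W) :
    chiPart (x + x') (y + y') u = chiPart x y u + chiPart x' y' u := by
  simp only [chiPart, Pi.add_apply, add_mul, Finset.sum_add_distrib]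
  ring

theorem code_add (s t : ZMod 3 × ZMod 3) (i : Fin 4) : code (s + t) i = code s i + code t i := by
  fin_cases i <;> simp [code] <;> ring

theorem chi_add (g h : Gam) (v : Var Crd) : chi (g + h) v = chi g v + chi h v := by
  rcases v with ⟨⟨i, b⟩, c⟩
  cases b
  · simp only [chi, Prod.fst_add, Prod.snd_add, Pi.add_apply, code_add]
    exact chiLeaf_add _ _ _ _ _ _ _
  · simp only [chi, Prod.fst_add, Prod.snd_add, Pi.add_apply]
    exact chiPart_add _ _ _ _ _

end Pool.Agent.T9h29.NA
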