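import Pool.Agent.T9h29.NA.Defs

/-!
# MP_954e53_ag.NegativeAnswer: interface (abstract notions and the concrete data)
-/

namespace Pool.Agent.T9h29.NA

open MvPolynomial

/-! ### Abstract notions for a graded ring -/

section abstract_notions

variable {K : Type*} [Field K] {S : Type*} [CommRing S] [Algebra K S]

/-- `J` is a reduction of `I`. -/
def IsReduction (J I : Ideal S) : Prop := J ≤ I ∧ ∃ r : ℕ, J * I ^ r = I ^ (r + 1)

/-- The core: the intersection of all reductions. -/
def core (I : Ideal S) : Ideal S := sInf {J | IsReduction J I}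

/-- The graded core: the intersection of all homogeneous reductions. -/
def gradedCore (𝒜 : ℕ → Submodule K S) [GradedAlgebra 𝒜] (I : Ideal S) : Ideal S :=
  sInf {J | IsReduction J I ∧ J.IsHomogeneous 𝒜}

/-- `I_N`: the ideal generated by the homogeneous elements of degree at least `N`. -/
def tail (𝒜 : ℕ → Submodule K S) (N : ℕ) : Ideal S := Ideal.span {x | ∃ n, N ≤ n ∧ x ∈ 𝒜 n}

/-- Every element of `S` is in exactly one way `∑ c_i(θ) b_i` with polynomials `c_i`: `S` is free
over `K[θ]` with basis `b` (and the `θ` are algebraically independent if `S ≠ 0`). -/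
def IsFreeBasis (K : Type*) [Field K] {S : Type*} [CommRing S] [Algebra K S] {d : ℕ}
    (θ : Fin d → S) {I : Type} [Fintype I] (b : I → S) : Prop :=
  ∀ x : S, ∃! c : I → MvPolynomial (Fin d) K, x = ∑ i, aeval θ (c i) * b i

/-- `φ : S → K[t_1..t_d]` is linear over `K[t_1..t_d]` (acting on `S` through `t_i ↦ θ_i`). -/
def IsLin {d : ℕ} (θ : Fin d → S) (φ : S → MvPolynomial (Fin d) K) : Prop :=
  (∀ x y, φ (x + y) = φ x + φ y) ∧ ∀ (p : MvPolynomial (Fin d) K) x, φ (aeval θ p * x) = p * φ x

/-- `S` is Gorenstein with `a`-invariant `-1`: there are homogeneous `θ_1..θ_d` of degree `q > 0`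
such that `S` is a finite free module over `T = K[θ_1..θ_d]` (Cohen–Macaulay) and `Hom_T(S,T)` is a
free `S`-module of rank one with a generator `φ` which lowers degrees by `q d - 1`. -/
def IsGorenstein (𝒜 : ℕ → Submodule K S) : Prop :=
  ∃ (d q : ℕ) (θ : Fin d → S) (m : ℕ) (b : Fin m → S) (φ : S → MvPolynomial (Fin d) K),
    0 < q ∧ (∀ i, θ i ∈ 𝒜 q) ∧ (∀ i, ∃ n, b i ∈ 𝒜 n) ∧ IsFreeBasis K θ b ∧
    IsLin θ φ ∧ (∀ ψ, IsLin θ ψ → ∃! x, ∀ y, ψ y = φ (x * y)) ∧
    ∀ n, ∀ x ∈ 𝒜 n, φ x ≠ 0 → ∃ k, (φ x).IsHomogeneous k ∧ n + 1 = q * (k + d)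

end abstract_notions

/-! ### The concrete data -/

/-- Words of length five over `F_3`. -/
abbrev W : Type := Fin 5 → ZMod 3

/-- Hamming weight. -/
def hw (u : W) : ℕ := (Finset.univ.filter fun j => u j ≠ 0).card

/-- Multiplicity of the label `(u,t)` in a leaf block. -/
def leafMult (p : W × ZMod 3) : ℕ :=
  if hw p.1 = 0 then (if p.2 = 0 then 12 else 11) else if hw p.1 = 1 then 1
  else if hw p.1 = 2 then 2 else 0

/-- Multiplicity of the label `u` in a partner block. -/
def partMult (u : W) : ℕ := if hw u = 0 then 32 else if hw u = 2 then 6 else if hw u = 3 then 1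
  else 0

/-- Coordinates of a leaf block (304 of them). -/
abbrev Leaf : Type := Σ p : W × ZMod 3, Fin (leafMult p)

/-- Coordinates of a partner block (352 of them). -/
abbrev Part : Type := Σ u : W, Fin (partMult u)

/-- The eight blocks: `(i, false)` are the leaves, `(i, true)` the partners. -/
abbrev Blk : Type := Fin 4 × Bool

/-- Coordinates of a block. -/
abbrev Crd (b : Blk) : Type := bif b.2 then Part else Leaf

/-- Number of equations of a block. -/
def rk (b : Blk) : ℕ := bif b.2 then 117 else 101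

instance (b : Blk) : Fintype (Crd b) := by
  rcases b with ⟨i, b⟩; cases b <;> (dsimp [Crd]; infer_instance)

instance (b : Blk) : DecidableEq (Crd b) := by
  rcases b with ⟨i, b⟩; cases b <;> (dsimp [Crd]; infer_instance)

/-- The group `Γ`: `(x_1..x_4; p, q; y)`. -/
abbrev Gam : Type := (Fin 4 → W) × (ZMod 3 × ZMod 3) × ZMod 3

/-- The word of the tetracode. -/
def code (s : ZMod 3 × ZMod 3) : Fin 4 → ZMod 3 := ![s.1, s.2, s.1 + s.2, s.1 - s.2]

/-- The character value of `g` on a leaf coordinate of label `(u,t)`. -/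
def chiLeaf (x : W) (s y : ZMod 3) (p : W × ZMod 3) : ZMod 3 :=
  ∑ j, x j * p.1 j + s * p.2 + y * ((hw p.1 : ZMod 3) + p.2 ^ 2 - 1)

/-- The character value of `g` on a partner coordinate of label `u`. -/
def chiPart (x : W) (y : ZMod 3) (u : W) : ZMod 3 :=
  -(∑ j, x j * u j) - y * (hw u : ZMod 3)

/-- The character values: `g` multiplies the coordinate `v` by `ω^(chi g v)`. -/
def chi (g : Gam) : Var Crd → ZMod 3
  | ⟨(i, false), c⟩ => chiLeaf (g.1 i) (code g.2.1 i) g.2.2 (show Leaf from c).1
  | ⟨(i, true), c⟩ => chiPart (g.1 i) g.2.2 (show Part from c).1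

/-- The weights of the coordinates (in the group of functions on `Γ`). -/
def wG (v : Var Crd) : Gam → ZMod 3 := fun g => chi g v

end Pool.Agent.T9h29.NA
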