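import Pool.Agent.T9h29.NA.Quot

/-!
# The action of `Γ` on `Q = ⊕ R_(n,…,n)` as a group of automorphisms
-/

namespace Pool.Agent.T9h29.NA

open MvPolynomial

universe u

section general

variable {K : Type u} [Field K] {B : Type} [Fintype B] [DecidableEq B] {ι : B → Type}
  [∀ b, Fintype (ι b)] [∀ b, DecidableEq (ι b)]

theorem pow_val_add {ω : K} (hω : ω ^ 3 = 1) (a c : ZMod 3) :
    ω ^ (a + c).val = ω ^ a.val * ω ^ c.val := by
  rw [← pow_add, ZMod.val_add, ← Nat.mod_add_div (a.val + c.val) 3, pow_add _ _ (3 * _),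
    pow_mul, hω, one_pow, mul_one]
  simp

theorem actR_comp {r : B → ℕ} (M : ∀ b, Matrix (Fin (r b)) (ι b) K) {ω : K} (h3 : ω ^ 3 = 1)
    (χ χ' : Var ι → ZMod 3) (x : Rg M) :
    actR M h3 χ (actR M h3 χ' x) = actR M h3 (χ + χ') x := by
  obtain ⟨F, rfl⟩ := Ideal.Quotient.mk_surjective x
  rw [actR_mk, actR_mk, actR_mk]
  congr 1
  have : (act ω χ).comp (act ω χ') = act ω (χ + χ') := by
    apply MvPolynomial.algHom_ext
    intro v
    simp only [AlgHom.comp_apply, act, aeval_X, map_mul, algHom_C, Pi.add_apply]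
    rw [pow_val_add h3, C_mul]
    change C _ * (C _ * X v) = _
    ring
  exact DFunLike.congr_fun this F

theorem actR_zero {r : B → ℕ} (M : ∀ b, Matrix (Fin (r b)) (ι b) K) {ω : K} (h3 : ω ^ 3 = 1)
    (x : Rg M) : actR M h3 (0 : Var ι → ZMod 3) x = x := by
  obtain ⟨F, rfl⟩ := Ideal.Quotient.mk_surjective x
  rw [actR_mk]
  congr 1
  have : act ω (0 : Var ι → ZMod 3) = AlgHom.id K _ := by
    apply MvPolynomial.algHom_ext
    intro v
    simp [act]
  rw [this]; rfl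

theorem actR_mem_Stot {r : B → ℕ} (M : ∀ b, Matrix (Fin (r b)) (ι b) K) {ω : K}
    (h3 : ω ^ 3 = 1) (χ : Var ι → ZMod 3) {A : Type*} [AddCommGroup A] {f : Rg M}
    (hf : f ∈ Stot M (0 : Var ι → A)) : actR M h3 χ f ∈ Stot M (0 : Var ι → A) := by
  obtain ⟨F, hF, rfl⟩ := (mem_Stot_iff M _ f).mp hf
  exact (mem_Stot_iff M _ _).mpr ⟨act ω χ F, fun m hm => hF m (act_support χ F hm), rfl⟩

/-- The restriction of `actR` to `Q`. -/
noncomputable def actQ {r : B → ℕ} (M : ∀ b, Matrix (Fin (r b)) (ι b) K) {ω : K}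
    (h3 : ω ^ 3 = 1) (A : Type*) [AddCommGroup A] (χ : Var ι → ZMod 3) :
    Stot M (0 : Var ι → A) →ₐ[K] Stot M (0 : Var ι → A) :=
  ((actR M h3 χ).comp (Stot M (0 : Var ι → A)).val).codRestrict _
    fun x => actR_mem_Stot M h3 χ x.2

theorem coe_actQ {r : B → ℕ} (M : ∀ b, Matrix (Fin (r b)) (ι b) K) {ω : K}
    (h3 : ω ^ 3 = 1) (A : Type*) [AddCommGroup A] (χ : Var ι → ZMod 3)
    (x : Stot M (0 : Var ι → A)) : (actQ M h3 A χ x : Rg M) = actR M h3 χ x := rfl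

section

variable {r : B → ℕ} (M : ∀ b, Matrix (Fin (r b)) (ι b) K) {ω : K}
    (h3 : ω ^ 3 = 1) (A : Type*) [AddCommGroup A] {G : Type} [AddCommGroup G]
    (χ : G → Var ι → ZMod 3) (hχ : ∀ g h, χ (g + h) = χ g + χ h)

include hχ

theorem actQ_mul (g h : G) (x : Stot M (0 : Var ι → A)) :
    actQ M h3 A (χ (g + h)) x = actQ M h3 A (χ g) (actQ M h3 A (χ h) x) := by
  apply Subtype.ext
  rw [coe_actQ, coe_actQ, coe_actQ, actR_comp, hχ]

theorem actQ_zero (x : Stot M (0 : Var ι → A)) : actQ M h3 A (χ 0) x = x := by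
  apply Subtype.ext
  have h0 : χ 0 = 0 := by simpa using hχ 0 0
  rw [coe_actQ, h0, actR_zero]

theorem actQ_inv (g : G) (x : Stot M (0 : Var ι → A)) :
    actQ M h3 A (χ g) (actQ M h3 A (χ (-g)) x) = x := by
  rw [← actQ_mul M h3 A χ hχ, add_neg_cancel, actQ_zero M h3 A χ hχ]

theorem actQ_inv' (g : G) (x : Stot M (0 : Var ι → A)) :
    actQ M h3 A (χ (-g)) (actQ M h3 A (χ g) x) = x := by
  rw [← actQ_mul M h3 A χ hχ, neg_add_cancel, actQ_zero M h3 A χ hχ]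

end


end general

end Pool.Agent.T9h29.NA
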