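import Pool.Agent.T9h29.NA.Iface
import Pool.Agent.T9h22.RS.Final
import Pool.Agent.T9h22.HS.Final
import Pool.Agent.T9h86.Core.Final
import Pool.Agent.T9h75.NA.Final
import Pool.Agent.T9h73.GorNA
import Pool.Agent.T9h82.NA.Primary
import Pool.Agent.T9h82.NA.Jac
import Pool.Agent.T9h19.NA.Supported
import Pool.Agent.T9h46.NA.Graded
import Pool.Agent.T9h46.NA.Dim
import Pool.Agent.T9h8.NA.Split

/-!
# Assembly
-/

namespace Pool.Agent.T9h29.NA

open MvPolynomial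

universe u

theorem main (K : Type u) [Field K] [IsAlgClosed K] [CharZero K]
    (M : ∀ b : Blk, Matrix (Fin (rk b)) (Crd b) K) (hM : ∀ b, AllMinors (M b)) :
    ∃ (_ : IsDomain (Stot M wG)) (_ : GradedAlgebra (grS M wG)),
      Pool.Agent.T9h22.HS.IsSectionRing (grS M wG) ∧ IsGorenstein (grS M wG) ∧
      Pool.Agent.T9h22.RS.HasRationalSingularities K (Stot M wG) ∧
      ringKrullDim (Stot M wG) = 1745 ∧ grS M wG 1 = ⊥ ∧
      ∃ N₀, ∀ N ≥ N₀, core (tail (grS M wG) N) ≠ gradedCore (grS M wG) (tail (grS M wG) N) := by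
  have hne : Nonempty Blk := ⟨(0, false)⟩
  have hdR : IsDomain (Rg M) :=
    Pool.Agent.T9h8.NA.isDomain_Rg M hM Pool.Agent.T9h19.NA.card_Crd Pool.Agent.T9h46.NA.one_le_rk
  have hdS : IsDomain (Stot M wG) := inferInstance
  obtain ⟨G⟩ := Pool.Agent.T9h46.NA.exists_graded wG Pool.Agent.T9h19.NA.wG_three M
  refine ⟨hdS, G, ?_⟩
  obtain ⟨θ, m, b, deg, hθ, hb, hfree, hle, htop, hno, hsymm⟩ := Pool.Agent.T9h75.NA.free_wG M hM
  have hrk : ∀ b, rk b ≤ Fintype.card (Crd b) := fun b => by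
    rw [Pool.Agent.T9h19.NA.card_Crd b]; omega
  obtain ⟨n0, hs⟩ := Pool.Agent.T9h19.NA.supported
  have hprim : ∀ n, n0 ≤ n → ∃ j0, ∀ j, j0 ≤ j → grS M wG j ≤
      (Ideal.span (grS M wG n : Set (Stot M wG))).restrictScalars K := fun n hn =>
    Pool.Agent.T9h82.NA.primary wG Pool.Agent.T9h19.NA.wG_three M hM hrk n (hs n hn)
  have h0 : ∀ s ∈ grS M wG 0, ∃ c : K, algebraMap K (Stot M wG) c = s :=
    fun s h => Pool.Agent.T9h75.NA.grS_zero s h
  refine ⟨?_, ?_, ?_, ?_, ?_, ?_⟩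
  · exact Pool.Agent.T9h22.HS.isSectionRing (grS M wG) h0 (by norm_num : 0 < 3) (by norm_num) θ hθ b
      hfree n0 (hprim n0 le_rfl) (hprim (n0 + 1) (Nat.le_succ n0))
  · obtain ⟨i0, hi0, -⟩ := htop
    exact Pool.Agent.T9h73.Gor.isGorenstein_of_free (grS M wG) (by norm_num : 0 < 3) θ hθ b deg hb
      hfree hle hsymm i0 hi0
  · exact Pool.Agent.T9h22.RS.hasRationalSingularities_wG M hM
  · exact Pool.Agent.T9h46.NA.dim_wG M hM
  · exact Pool.Agent.T9h75.NA.grS_one Pool.Agent.T9h19.NA.good_one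
  · exact Pool.Agent.T9h86.NA.core_ne_gradedCore (grS M wG) h0 (by norm_num) (by norm_num) θ hθ b
      deg hb hfree hle htop (hno trivial) ⟨n0, fun n hn => by
        obtain ⟨j0, hj⟩ := hprim n hn
        exact ⟨j0, fun j hj' a ha => hj j hj' ha⟩⟩

theorem exists_matrices (K : Type u) [Field K] [CharZero K] :
    ∃ M : ∀ b : Blk, Matrix (Fin (rk b)) (Crd b) K, ∀ b, AllMinors (M b) :=
  ⟨fun b => (Pool.Agent.T9h82.NA.exists_allMinors (rk b) (Crd b)).choose,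
    fun b => (Pool.Agent.T9h82.NA.exists_allMinors (rk b) (Crd b)).choose_spec⟩

end Pool.Agent.T9h29.NA
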