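import Pool.Agent.T9h29.NA.Avg

/-!
# `S = Q^Γ`, `Q = ⊕ R_(n,…,n)`
-/

namespace Pool.Agent.T9h29.NA

open MvPolynomial

universe u

section general

variable {K : Type u} [Field K] {B : Type} [Fintype B] [DecidableEq B] {ι : B → Type}
  [∀ b, Fintype (ι b)] [∀ b, DecidableEq (ι b)]

theorem bdeg_add (m m' : Var ι →₀ ℕ) (b : B) : bdeg (m + m') b = bdeg m b + bdeg m' b := by
  simp [bdeg, Finset.sum_add_distrib]

theorem wgt_add {A : Type*} [AddCommGroup A] (w : Var ι → A) (m m' : Var ι →₀ ℕ) :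
    wgt w (m + m') = wgt w m + wgt w m' := by
  simp [wgt, add_smul, Finset.sum_add_distrib]

theorem good_add {A : Type*} [AddCommGroup A] {w : Var ι → A} {n n' : ℕ} {m m' : Var ι →₀ ℕ}
    (h : m ∈ Good w n) (h' : m' ∈ Good w n') : m + m' ∈ Good w (n + n') :=
  ⟨fun b => by rw [bdeg_add, h.1, h'.1], by rw [wgt_add, h.2, h'.2, add_zero]⟩

theorem good_zero {A : Type*} [AddCommGroup A] (w : Var ι → A) : (0 : Var ι →₀ ℕ) ∈ Good w 0 :=
  ⟨fun b => by simp [bdeg], by simp [wgt]⟩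

theorem mem_Stot_iff {r : B → ℕ} (M : ∀ b, Matrix (Fin (r b)) (ι b) K) {A : Type*}
    [AddCommGroup A] (w : Var ι → A) (x : Rg M) :
    x ∈ Stot M w ↔ ∃ F : MvPolynomial (Var ι) K,
      (∀ m ∈ F.support, ∃ n, m ∈ Good w n) ∧ Ideal.Quotient.mk (idl M) F = x := by
  classical
  constructor
  · intro hx
    induction hx using Algebra.adjoin_induction with
    | mem x hx =>
      obtain ⟨n, hn⟩ := Set.mem_iUnion.mp hx
      obtain ⟨F, hF, rfl⟩ := hn
      exact ⟨F, fun m hm => ⟨n, hF hm⟩, rfl⟩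
    | algebraMap c =>
      refine ⟨C c, fun m hm => ⟨0, ?_⟩, rfl⟩
      have := support_monomial_subset (s := (0 : Var ι →₀ ℕ)) (a := c) hm
      rw [Finset.mem_singleton] at this
      rw [this]
      exact good_zero w
    | add x y _ _ hx hy =>
      obtain ⟨F, hF, rfl⟩ := hx
      obtain ⟨F', hF', rfl⟩ := hy
      refine ⟨F + F', fun m hm => ?_, map_add _ _ _⟩
      rcases Finset.mem_union.mp (support_add hm) with h | h
      · exact hF m h
      · exact hF' m h
    | mul x y _ _ hx hy =>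
      obtain ⟨F, hF, rfl⟩ := hx
      obtain ⟨F', hF', rfl⟩ := hy
      refine ⟨F * F', fun m hm => ?_, map_mul _ _ _⟩
      obtain ⟨a, ha, b, hb, rfl⟩ := Finset.mem_add.mp (support_mul _ _ hm)
      obtain ⟨n, hn⟩ := hF a ha
      obtain ⟨n', hn'⟩ := hF' b hb
      exact ⟨n + n', good_add hn hn'⟩
  · rintro ⟨F, hF, rfl⟩
    rw [F.as_sum, map_sum]
    refine Subalgebra.sum_mem _ fun m hm => ?_
    obtain ⟨n, hn⟩ := hF m hm
    refine Algebra.subset_adjoin (Set.mem_iUnion.mpr ⟨n, ⟨monomial m (coeff m F), ?_, rfl⟩⟩)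
    intro m' hm'
    have := support_monomial_subset hm'
    rw [Finset.mem_singleton] at this
    rw [this]
    exact hn

/-- Averaging: an element of `R` which is invariant under `Γ` is the class of a polynomial of
weight `0`, whose monomials occur in any given representative. -/
theorem exists_avg {r : B → ℕ} (M : ∀ b, Matrix (Fin (r b)) (ι b) K) {ω : K}
    (hω : IsPrimitiveRoot ω 3) [CharZero K] {G : Type} [AddCommGroup G] [Finite G]
    (χ : G → Var ι → ZMod 3) (hχ : ∀ g h v, χ (g + h) v = χ g v + χ h v)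
    (F : MvPolynomial (Var ι) K)
    (hinv : ∀ g, actR M hω.pow_eq_one (χ g) (Ideal.Quotient.mk (idl M) F)
      = Ideal.Quotient.mk (idl M) F) :
    ∃ F' : MvPolynomial (Var ι) K, Ideal.Quotient.mk (idl M) F' = Ideal.Quotient.mk (idl M) F ∧
      ∀ m ∈ F'.support, m ∈ F.support ∧ wgt (fun v g => χ g v) m = 0 := by
  classical
  cases nonempty_fintype G
  have h3 := hω.pow_eq_one
  -- the averaged polynomial
  set F' : MvPolynomial (Var ι) K := C ((Fintype.card G : K)⁻¹) * ∑ g, act ω (χ g) F with hF'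
  have hcard : (Fintype.card G : K) ≠ 0 := by
    exact_mod_cast Fintype.card_ne_zero
  have hmk : Ideal.Quotient.mk (idl M) F' = Ideal.Quotient.mk (idl M) F := by
    rw [hF', map_mul, map_sum]
    have : ∀ g, Ideal.Quotient.mk (idl M) (act ω (χ g) F) = Ideal.Quotient.mk (idl M) F := by
      intro g
      rw [← actR_mk M h3, hinv]
    simp only [this, Finset.sum_const, Finset.card_univ, nsmul_eq_mul]
    rw [← mul_assoc]
    have h1 : (Ideal.Quotient.mk (idl M) (C ((Fintype.card G : K)⁻¹))) * (Fintype.card G : Rg M)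
        = 1 := by
      have : (Fintype.card G : Rg M) = Ideal.Quotient.mk (idl M) (C (Fintype.card G : K)) := by
        simp
      rw [this, ← map_mul, ← C_mul, inv_mul_cancel₀ hcard, C_1, map_one]
    rw [h1, one_mul]
  -- its coefficients
  have hcoeff : ∀ m, coeff m F' =
      (Fintype.card G : K)⁻¹ * (coeff m F * ∑ g, ω ^ (∑ v, m v • χ g v).val) := by
    intro m
    have key : ∀ g : G, coeff m (act ω (χ g) F) = coeff m F * ω ^ (∑ v, m v • χ g v).val := ?_
    · rw [hF', coeff_C_mul, coeff_sum, Finset.sum_congr rfl fun g _ => key g, ← Finset.mul_sum]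
    intro g
    conv_lhs => rw [F.as_sum, map_sum, coeff_sum]
    have : ∀ x ∈ F.support, coeff m (act ω (χ g) (monomial x (coeff x F)))
        = if x = m then coeff m F * ω ^ (∑ v, m v • χ g v).val else 0 := by
      intro x _
      rw [act_monomial, pow_cast h3, coeff_monomial]
      split_ifs with h
      · subst h; rfl
      · rfl
    rw [Finset.sum_congr rfl this, Finset.sum_ite_eq']
    split_ifs with h
    · rfl
    · rw [notMem_support_iff.mp h, zero_mul]
  refine ⟨F', hmk, fun m hm => ?_⟩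
  have hm' : coeff m F' ≠ 0 := mem_support_iff.mp hm
  rw [hcoeff] at hm'
  have hmF : coeff m F ≠ 0 := by
    intro h; apply hm'; rw [h]; simp
  refine ⟨mem_support_iff.mpr hmF, ?_⟩
  by_contra hne
  obtain ⟨g0, hg0⟩ : ∃ g0, ∑ v, m v • χ g0 v ≠ 0 := by
    by_contra hcon
    push Not at hcon
    apply hne
    funext g
    simpa [wgt, Finset.sum_apply, Pi.smul_apply] using hcon g
  have hadd : ∀ g h, ∑ v, m v • χ (g + h) v = ∑ v, m v • χ g v + ∑ v, m v • χ h v := by
    intro g h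
    simp only [hχ, smul_add, Finset.sum_add_distrib]
  have hpow : ∀ a c : ZMod 3, ω ^ (a + c).val = ω ^ a.val * ω ^ c.val := by
    intro a c
    rw [← pow_add, ZMod.val_add, ← Nat.mod_add_div (a.val + c.val) 3, pow_add _ _ (3 * _),
      pow_mul, h3, one_pow, mul_one]
    simp
  have hsum : ∑ g, ω ^ (∑ v, m v • χ g v).val = 0 := by
    have e1 : ∑ g, ω ^ (∑ v, m v • χ g v).val
        = ω ^ (∑ v, m v • χ g0 v).val * ∑ g, ω ^ (∑ v, m v • χ g v).val := by
      rw [Finset.mul_sum]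
      rw [← Equiv.sum_comp (Equiv.addLeft g0) (fun g => ω ^ (∑ v, m v • χ g v).val)]
      refine Finset.sum_congr rfl fun g _ => ?_
      rw [Equiv.coe_addLeft, hadd, hpow]
    have hne1 : ω ^ (∑ v, m v • χ g0 v).val ≠ 1 := by
      intro h
      have := (hω.pow_eq_one_iff_dvd _).mp h
      have hlt := ZMod.val_lt (∑ v, m v • χ g0 v)
      have h0 : (∑ v, m v • χ g0 v).val = 0 := Nat.eq_zero_of_dvd_of_lt this hlt
      exact hg0 ((ZMod.val_eq_zero _).mp h0)
    have : (1 - ω ^ (∑ v, m v • χ g0 v).val) * ∑ g, ω ^ (∑ v, m v • χ g v).val = 0 := by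
      rw [sub_mul, one_mul, ← e1, sub_self]
    rcases mul_eq_zero.mp this with h | h
    · exact absurd (sub_eq_zero.mp h).symm hne1
    · exact h
  apply hm'
  rw [hsum]; simp

theorem wgt_zero {A : Type*} [AddCommGroup A] (m : Var ι →₀ ℕ) : wgt (0 : Var ι → A) m = 0 := by
  simp [wgt]

/-- `act` preserves the support. -/
theorem act_support {ω : K} (χ : Var ι → ZMod 3) (F : MvPolynomial (Var ι) K) :
    (act ω χ F).support ⊆ F.support := by
  classical
  intro m hm
  rw [mem_support_iff] at hm ⊢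
  contrapose! hm
  rw [F.as_sum, map_sum, coeff_sum]
  refine Finset.sum_eq_zero fun x hx => ?_
  rw [act_monomial, coeff_monomial]
  split_ifs with h
  · subst h
    exact absurd hm (mem_support_iff.mp hx)
  · rfl

/-- `actR` is the identity on the classes of the polynomials of weight `0`. -/
theorem actR_eq_of_wgt {r : B → ℕ} (M : ∀ b, Matrix (Fin (r b)) (ι b) K) {ω : K}
    (h3 : ω ^ 3 = 1) {G : Type} (χ : G → Var ι → ZMod 3) (F : MvPolynomial (Var ι) K)
    (hF : ∀ m ∈ F.support, wgt (fun v g => χ g v) m = 0) (g : G) :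
    actR M h3 (χ g) (Ideal.Quotient.mk (idl M) F) = Ideal.Quotient.mk (idl M) F := by
  rw [actR_mk]
  congr 1
  conv_lhs => rw [F.as_sum, map_sum]
  conv_rhs => rw [F.as_sum]
  refine Finset.sum_congr rfl fun m hm => ?_
  rw [act_monomial, pow_cast h3]
  have hz : ∑ v, m v • χ g v = 0 := by
    have := congrFun (hF m hm) g
    simpa [wgt, Finset.sum_apply, Pi.smul_apply] using this
  rw [hz, ZMod.val_zero, pow_zero, mul_one]

/-- `S = Q^Γ`. -/
theorem mem_Stot_iff_invariant {r : B → ℕ} (M : ∀ b, Matrix (Fin (r b)) (ι b) K) {ω : K}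
    (hω : IsPrimitiveRoot ω 3) [CharZero K] {G : Type} [AddCommGroup G] [Finite G]
    (χ : G → Var ι → ZMod 3) (hχ : ∀ g h v, χ (g + h) v = χ g v + χ h v) (f : Rg M) :
    f ∈ Stot M (fun v g => χ g v) ↔
      f ∈ Stot M (0 : Var ι → G → ZMod 3) ∧ ∀ g, actR M hω.pow_eq_one (χ g) f = f := by
  constructor
  · intro hf
    obtain ⟨F, hF, rfl⟩ := (mem_Stot_iff M _ f).mp hf
    refine ⟨(mem_Stot_iff M _ _).mpr ⟨F, fun m hm => ?_, rfl⟩, fun g => ?_⟩
    · obtain ⟨n, hn⟩ := hF m hm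
      exact ⟨n, hn.1, wgt_zero m⟩
    · refine actR_eq_of_wgt M _ χ F (fun m hm => ?_) g
      obtain ⟨n, hn⟩ := hF m hm
      exact hn.2
  · rintro ⟨hf, hinv⟩
    obtain ⟨F, hF, rfl⟩ := (mem_Stot_iff M _ f).mp hf
    obtain ⟨F', hF', hs⟩ := exists_avg M hω χ hχ F hinv
    rw [← hF']
    refine (mem_Stot_iff M _ _).mpr ⟨F', fun m hm => ?_, rfl⟩
    obtain ⟨n, hn⟩ := hF m (hs m hm).1
    exact ⟨n, hn.1, (hs m hm).2⟩

/-- The automorphisms preserve the graded pieces of `Q`. -/
theorem actR_mem_Sn_zero {r : B → ℕ} (M : ∀ b, Matrix (Fin (r b)) (ι b) K) {ω : K}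
    (h3 : ω ^ 3 = 1) (χ : Var ι → ZMod 3) {A : Type*} [AddCommGroup A] (n : ℕ) {f : Rg M}
    (hf : f ∈ Sn M (0 : Var ι → A) n) : actR M h3 χ f ∈ Sn M (0 : Var ι → A) n := by
  obtain ⟨F, hF, rfl⟩ := hf
  refine ⟨act ω χ F, fun m hm => hF (act_support χ F hm), rfl⟩

/-- `Rn = Sn 0`. -/
theorem Rn_eq {r : B → ℕ} (M : ∀ b, Matrix (Fin (r b)) (ι b) K) {A : Type*} [AddCommGroup A]
    (n : ℕ) : Rn M n = Sn M (0 : Var ι → A) n := by
  have : {m : Var ι →₀ ℕ | ∀ b, bdeg m b = n} = Good (0 : Var ι → A) n := by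
    ext m
    simp [Good, wgt_zero]
  rw [Rn, Sn, this]

end general

end Pool.Agent.T9h29.NA
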